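import Pool.Agent.MP_d99b12_co.H86.Spec
import Pool.Agent.MP_d99b12_co.H25.STEP
import Pool.Agent.MP_d99b12_co.H25.GROW
import Pool.Agent.MP_d99b12_co.H25.AUG

/-! # Augmentation at any level when no separation exists -/

namespace Pool.Agent.MP_d99b12_co.H86

open Matrix Sum H25 H25.STEP H25.Grow

namespace AUG2

variable {F : Type} [Field F] {E K P ι : Type} [Fintype K] [Fintype E]

variable {m N : ℕ} {d : Datum F K P} {col : E → Bool} {S : ι → Matrix E E F}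
  {kk : K → E} {pp : Fin N → P → E} {cl : Fin (N + 1) → ι} {Q : Set E} {X : ι → E → K → F}

lemma noSep_mono {T : ι → Matrix E E F} {Z Q' : Set E} {n : ℕ} {g : Fin n → Fin N}
    (h : NoSep S kk Q pp) (hp : ∀ i, IsPiv (S i) (T i) Z) (hQ : Q ⊆ Q') (hg : StrictMono g) :
    NoSep T kk Q' fun j => pp (g j) := by
  rintro i j l hjl ⟨W, a, b, c⟩
  exact h i _ _ (hg hjl) ⟨W, hQ.trans a, b, (hp i).symm.rkLE_cut c⟩

/-- A shortest path of the background-free matrix from `Q` to the petals. -/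
lemma exists_path2 (hs : Stage m d col S kk pp cl Q X) (hr : d.Red) (hns : NoSep S kk Q pp)
    (hN : 1 < N) :
    ∃ (X0 : E → K → F) (v : ℕ → E) (p : ℕ) (u0 : E), 1 ≤ p ∧
      (∀ u ∈ Q, X0 u = X (cl (Fin.last N)) u) ∧
      PS (S (cl (Fin.last N))) kk X0 Q (petals pp) v p ∧ u0 ∈ Q ∧
      nat (S (cl (Fin.last N))) kk X0 u0 (v 0) ≠ 0 ∧
      ¬InSpan (S (cl (Fin.last N))) kk (petals pp) (v (p - 1)) := by
  classical
  set σ := S (cl (Fin.last N)) with hσ
  obtain ⟨C, hC⟩ := exists_cols d.y hr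
  let j0 : Fin N := ⟨0, by omega⟩
  have hyv : ∀ j q, yv σ kk (pp j q) = d.y q := fun j q => hs.chain.yv_pp (Fin.last N) j q
  have hsol : ∀ u, ∃ x : K → F, ∀ k, σ u (pp j0 (C k)) = x ⬝ᵥ d.y (C k) :=
    fun u => solve (fun k => d.y (C k)) hC _
  choose x hx using hsol
  have huniq : ∀ u x', Al σ kk (petals pp) u x' → x' = x u := by
    intro u x' h
    rw [← sub_eq_zero]
    apply perp (fun k => d.y (C k)) hC
    intro k
    have e1 := h _ ⟨j0, C k, rfl⟩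
    rw [hyv, hx] at e1
    rw [sub_dotProduct, e1, sub_self]
  have hxQ : ∀ u ∈ Q, x u = X (cl (Fin.last N)) u := fun u hu => (huniq u _ (hs.al _ u hu)).symm
  have hQY : ∀ u ∈ Q, ∀ w ∈ petals pp, nat σ kk x u w = 0 := by
    intro u hu
    rw [← al_iff, hxQ u hu]
    exact hs.al _ u hu
  rcases exists_sWalk_or_closed (fun u w => nat σ kk x u w ≠ 0) Q (petals pp) with
    ⟨ℓ, z, hz⟩ | ⟨W, h1, h2, h3⟩
  · have hd := disjQ hs
    have h0 : ℓ ≠ 0 := by
      rintro rfl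
      exact Set.disjoint_left.1 hd hz.start hz.stop
    have h1 : ℓ ≠ 1 := by
      rintro rfl
      exact hz.step 0 (by omega) (hQY _ hz.start _ hz.stop)
    refine ⟨x, fun i => z (i + 1), ℓ - 1, z 0, by omega, hxQ, ⟨?_, ?_, ?_, ?_, ?_, ?_, ?_⟩,
      hz.start, hz.step 0 (by omega), ?_⟩
    · intro i hi j hj e
      have := hz.inj (by omega) (by omega) e
      omega
    · intro j hj
      exact hz.notMem_start (by omega) (by omega)
    · intro j hj
      exact hz.notMem_stop (by omega)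
    · intro u hu j h1 h2
      exact not_not.1 (hz.chord_start hu (by omega) (by omega))
    · intro j hj w hw
      exact not_not.1 (hz.chord_stop hw (by omega))
    · intro i j h1 h2
      exact not_not.1 (hz.chord (by omega) (by omega))
    · intro j hj
      exact hz.step (j + 1) (by omega)
    · rintro ⟨x', hx'⟩
      have e : ℓ - 1 - 1 + 1 = ℓ - 1 := by omega
      simp only [e] at hx'
      have := hz.step (ℓ - 1) (by omega)
      rw [show ℓ - 1 + 1 = ℓ by omega] at this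
      apply this
      rw [huniq _ _ hx'] at hx'
      exact al_iff.1 hx' _ hz.stop
  · exfalso
    have hrk : RkLE σ W Wᶜ (Fintype.card K) :=
      rkLE_of_fac x (yv σ kk) le_rfl fun u hu w hw => sub_eq_zero.1 (not_not.1 (h3 u hu w hw))
    exact hns _ j0 ⟨1, hN⟩ (Fin.mk_lt_mk.2 Nat.zero_lt_one) ⟨W, h1,
      h2.mono_right (Set.union_subset (range_sub pp _) (range_sub pp _)), hrk⟩

lemma post2 (hs : Stage m d col S kk pp cl Q X) {P0 : Set P} (hA : d.AugIn P0) {n : ℕ} {j : Fin N}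
    {g : Fin (n + 1) → Fin N} (side : (∀ t, j < g t) ∨ ∀ t, g t < j)
    {X0 : E → K → F} {v : ℕ → E} {p : ℕ} {u0 : E} (_hp : 1 ≤ p)
    (hX0 : ∀ u ∈ Q, X0 u = X (cl (Fin.last N)) u)
    (hps : PS (S (cl (Fin.last N))) kk X0 Q (petals pp) v p) (hu0 : u0 ∈ Q)
    (hit : nat (S (cl (Fin.last N))) kk X0 u0 (v 0) ≠ 0) {xs : K → F}
    (hxs : Al (S (cl (Fin.last N))) kk (petals fun t => pp (g t)) (v (p - 1)) xs)
    (hnot : ¬Al (S (cl (Fin.last N))) kk (Set.range (pp j)) (v (p - 1)) xs) {p0 : ℕ}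
    (hsh : ∀ (X : ι → E → K → F) (Ω : Set E), Disjoint Q Ω →
      (∀ i, i = cl j.castSucc ∨ i = cl (Fin.last N) → PS (S i) kk (X i) Q Ω v p) →
      ∃ (Z : Set E) (S' : ι → Matrix E E F) (v' : ℕ → E) (len' : ℕ), (∀ i, IsPiv (S i) (S' i) Z) ∧
        (∀ e ∈ Z, ∃ j, 1 ≤ j ∧ j + 1 < p ∧ v j = e) ∧ 1 ≤ len' ∧ len' ≤ p0 ∧ v' 0 = v 0 ∧
        v' (len' - 1) = v (p - 1) ∧ (∀ j < len', v' j ∉ Z ∧ ∃ j' < p, v' j = v j') ∧
        ∀ i, i = cl j.castSucc ∨ i = cl (Fin.last N) → PS (S' i) kk (X i) Q Ω v' len' ∧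
          AgreeOn (Q ∪ Ω) (S i) (S' i) ∧ (∀ u ∈ Q, S' i u (v 0) = S i u (v 0)) ∧
          ∀ w ∈ Ω, S' i (v (p - 1)) w = S i (v (p - 1)) w) :
    ∃ (col' : E → Bool) (T : ι → Matrix E E F) (X1 : ι → E → K → F) (v' : ℕ → E) (len : ℕ),
      len ≤ p0 ∧ Post m P0 col col' S T kk X X1 Q (petals fun t => pp (g t)) (pp j) v' len
        (cl j.castSucc) (cl (Fin.last N)) ∧ ∃ Z, ∀ i, IsPiv (S i) (T i) Z := by
  classical
  obtain ⟨hRef, hRed, hSC, hDev⟩ := hA
  set l := cl (Fin.last N) with hl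
  set i1 := cl j.castSucc with hi1
  set Y := petals fun t => pp (g t) with hY
  set Ω := Y ∪ Set.range (pp j) with hΩ
  have hYP : Y ⊆ petals pp := petals_sub pp g
  have hΩP : Ω ⊆ petals pp := Set.union_subset hYP (range_sub pp j)
  have hYΩ : Y ⊆ Ω := Set.subset_union_left
  have hjΩ : ∀ q, pp j q ∈ Ω := fun q => Or.inr ⟨q, rfl⟩
  have hQΩ : Disjoint Q Ω := (disjQ hs).mono_right hΩP
  have hF : ∀ i, Full (S i) kk Y := fun i =>
    (full hs hRed i (g 0)).mono (range_sub (fun t => pp (g t)) 0)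
  obtain ⟨ξ, hξ, hB⟩ := petal_al hs hRef side
  let X' : ι → E → K → F := fun i => co (S i) kk Y
  have hX'Q : ∀ i, ∀ u ∈ Q, X' i u = X i u := fun i u hu =>
    co_eq (hF i) ((hs.al i u hu).mono hYP)
  have hv0 : ∀ t, t + 1 < p → Al (S l) kk Y (v t) (X0 (v t)) := fun t ht =>
    al_iff.2 fun w hw => hps.right t ht w (hYP hw)
  have hpsl : PS (S l) kk (X' l) Q Ω v p :=
    ps_congr hps hΩP (fun u hu => by rw [hX'Q l u hu, hX0 u hu]) fun t ht => co_eq (hF l) (hv0 t ht)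
  have hpsi : ∀ i, PS (S i) kk (X' i) Q Ω v p := fun i =>
    ps_same (hs.fam.same l i) (hF l) hpsl (fun u hu => ⟨_, (hs.al l u hu).mono hYP⟩)
      fun t ht => ⟨_, hv0 t ht⟩
  obtain ⟨Z, T, v', len, hpiv, hZ, hlen, hlen0, hv'0, hv'l, -, hT⟩ :=
    hsh X' Ω hQΩ fun i _ => hpsi i
  have hQZ : Disjoint Q Z := by
    rw [Set.disjoint_right]
    intro e he
    obtain ⟨t, -, h2, rfl⟩ := hZ e he
    exact hpsl.notQ t (by omega)
  have hΩZ : Disjoint Ω Z := by
    rw [Set.disjoint_right]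
    intro e he
    obtain ⟨t, -, h2, rfl⟩ := hZ e he
    exact hpsl.notO t (by omega)
  have h1 : ∀ i, ∀ u ∈ Q, ∀ z ∈ Z, nat (S i) kk (X' i) u z = 0 := by
    intro i u hu z hz
    obtain ⟨t, a, b, rfl⟩ := hZ z hz
    exact (hpsi i).left u hu t a (by omega)
  have h2 : ∀ i, ∀ z ∈ Z, ∀ w ∈ Ω, nat (S i) kk (X' i) z w = 0 := by
    intro i z hz w hw
    obtain ⟨t, a, b, rfl⟩ := hZ z hz
    exact (hpsi i).right t b w hw
  have hsing : ∀ i r, X' i (kk r) = Pi.single r 1 := fun i r =>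
    Al.eq_single (hF i) (co_al ⟨_, (hs.al i _ (hs.kQ r)).mono hYP⟩)
  have hne : ∀ i, ∀ u ∈ Q, ∀ w ∈ Q ∪ Ω, nat (T i) kk (X' i) u w = nat (S i) kk (X' i) u w :=
    fun i => (hpiv i).nat_eq (hs.fam.skew i) hQZ hΩZ hQΩ (h1 i) (h2 i) hs.kQ (hsing i)
  have hfam : Fam (colFlip col Z) T := hs.fam.piv hpiv
  have hkW : ∀ r, kk r ∈ Q ∪ Ω := fun r => Or.inl (hs.kQ r)
  have hΩW : Ω ⊆ Q ∪ Ω := Set.subset_union_right
  obtain ⟨hpsT, hag, hT0, hTl⟩ := hT l (Or.inr rfl)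
  have hag1 := (hT i1 (Or.inl rfl)).2.1
  have hfull : ∀ i, ∀ C ⊆ Ω, Full (S i) kk C → Full (T i) kk C := fun i C hC h =>
    (hfam.same l i).full (full_agree hag hkW (hC.trans hΩW) ((hs.fam.same i l).full h))
  have hFT : ∀ i, Full (T i) kk Y := fun i => hfull i Y hYΩ (hF i)
  let X1 : ι → E → K → F := fun i => co (T i) kk Y
  have hQal : ∀ i, ∀ u ∈ Q, Al (T i) kk Y u (X' i u) := fun i u hu => al_iff.2 fun w hw => by
    rw [hne i u hu w (hΩW (hYΩ hw))]
    exact al_iff.1 (co_al ⟨_, (hs.al i u hu).mono hYP⟩) w hw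
  have hX1Q : ∀ i, ∀ u ∈ Q, X1 i u = X' i u := fun i u hu => co_eq (hFT i) (hQal i u hu)
  have hPl : ∀ q, Al (T l) kk Y (pp j q) (ξ q) := fun q =>
    al_agree hag hkW (hYΩ.trans hΩW) (fun w hw => hag _ (hΩW (hjΩ q)) _ (hΩW (hYΩ hw))) (hξ _ q)
  have hP1 : ∀ q, Al (T i1) kk Y (pp j q) (ξ q) := fun q =>
    al_agree hag1 hkW (hYΩ.trans hΩW) (fun w hw => hag1 _ (hΩW (hjΩ q)) _ (hΩW (hYΩ hw))) (hξ _ q)
  have hlast : Al (T l) kk Y (v' (len - 1)) xs := by
    rw [hv'l]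
    exact al_agree hag hkW (hYΩ.trans hΩW) (fun w hw => hTl w (hYΩ hw)) hxs
  have hmid : ∀ t, t + 1 < len → Al (T l) kk Y (v' t) (X' l (v' t)) := fun t ht =>
    al_iff.2 fun w hw => hpsT.right t ht w (hYΩ hw)
  have hps1 : PS (T l) kk (X1 l) Q Ω v' len :=
    ps_congr hpsT subset_rfl (hX1Q l) fun t ht => co_eq (hFT l) (hmid t ht)
  have hin : ∀ x ∈ vl P len, InSpan (T l) kk Y (Sum.elim (pp j) v' x) := by
    rintro (q | t) hx
    · exact ⟨_, hPl q⟩
    · have ht : t < len := hx t rfl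
      rcases Nat.lt_or_ge (t + 1) len with h | h
      · exact ⟨_, hmid t h⟩
      · obtain rfl : t = len - 1 := by omega
        exact ⟨_, hlast⟩
  have hinl : ∀ q, (inl q : P ⊕ ℕ) ∈ vl P len := fun q i h => by cases h
  have hinr : ∀ t < len, (inr t : P ⊕ ℕ) ∈ vl P len := fun t ht i h => by
    obtain rfl : t = i := by simpa using h
    exact ht
  have tQ : ∀ i, ∀ u ∈ Q, ∀ w, nat (T l) kk (X1 l) u w = 0 ↔ nat (T i) kk (X1 i) u w = 0 :=
    fun i u hu w => nat_co (hfam.same l i) (hFT l) ⟨_, hQal l u hu⟩ w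
  have tP : ∀ i, ∀ x ∈ vl P len, ∀ w, nat (T l) kk (X1 l) (Sum.elim (pp j) v' x) w = 0 ↔
      nat (T i) kk (X1 i) (Sum.elim (pp j) v' x) w = 0 :=
    fun i x hx w => nat_co (hfam.same l i) (hFT l) (hin x hx) w
  have hyj : ∀ q, yv (T l) kk (pp j q) = d.y q := fun q => funext fun r =>
    (hag _ (hkW r) _ (hΩW (hjΩ q))).trans (hs.chain.kk_pp _ r j q)
  refine ⟨colFlip col Z, T, X1, v', len, hlen0, ⟨hfam, fun i => (hpiv i).conn (hs.conn i),
    fun u hu => colFlip_of_notMem col (Set.disjoint_left.1 hQZ hu),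
    fun u hu => colFlip_of_notMem col (Set.disjoint_left.1 hΩZ (hYΩ hu)),
    fun t ht h => hpsT.notO t ht (hYΩ h), ?_, fun i C hC => hfull i C (hC.trans hYΩ), ?_, ?_,
    ⟨hlen, ?_, ?_, ?_, ?_, ?_, ?_⟩, ?_⟩, Z, hpiv⟩
  · rintro i u (hu | ⟨x, hx, rfl⟩)
    · exact co_al ⟨_, hQal i u hu⟩
    · exact co_al ((hfam.same l i).inSpan (hin x hx))
  · intro i u hu
    refine ⟨(hX1Q i u hu).trans (hX'Q i u hu), fun w hw => ?_⟩
    rw [nat_congr (hX1Q i u hu), hne i u hu w (Or.inl hw), nat_congr (hX'Q i u hu)]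
  · intro i
    obtain ⟨Ψ1, Ψ2, Ψ3, -, a, b⟩ := (hpiv i).pers (hs.fam.skew i) hQZ hΩZ hQΩ (h1 i) (h2 i)
    refine ⟨Ψ2, Ψ3, fun r w hw => ?_, fun u hu w hw => b u (hYΩ hu) w (hYΩ hw)⟩
    rw [a _ (hs.kQ r) w (hYΩ hw), hsing, single_one_dotProduct]
  · rintro (q | t) hx (q' | t') hx' e
    · rw [(hs.chain.pp_inj e).2]
    · exact absurd (hjΩ q) (by
        have e' : pp j q = v' t' := e
        rw [e']; exact hpsT.notO t' (hx' t' rfl))
    · exact absurd (hjΩ q') (by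
        have e' : v' t = pp j q' := e
        rw [← e']; exact hpsT.notO t (hx t rfl))
    · rw [hpsT.inj t (hx t rfl) t' (hx' t' rfl) e]
  · rintro (q | t) hx
    · exact hs.disj j q
    · exact hpsT.notQ t (hx t rfl)
  · intro i u hu x hx h0
    rw [← tQ i u hu]
    rcases x with q | t
    · rw [nat_congr (hX1Q l u hu), Sum.elim_inl, hne l u hu _ (hΩW (hjΩ q)),
        nat_congr (hX'Q l u hu)]
      exact al_iff.1 (hs.al l u hu) _ ⟨j, q, rfl⟩
    · refine hps1.left u hu t ?_ (hx t rfl)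
      rcases Nat.eq_zero_or_pos t with rfl | h
      · exact absurd rfl h0
      · exact h
  · refine ⟨u0, hu0, fun i e => hit ?_⟩
    rw [← tQ i u0 hu0, Sum.elim_inr, hv'0] at e
    rw [← e]
    symm
    exact nat_congr' (by rw [hX1Q l u0 hu0, hX'Q l u0 hu0, hX0 u0 hu0]) (hT0 u0 hu0)
      fun r => hT0 _ (hs.kQ r)
  · have hpath : ∀ t < len, Relation.ReflTransGen (fun a b => a ∈ vl P len ∧ b ∈ vl P len ∧
        ∀ i, nat (T i) kk (X1 i) (Sum.elim (pp j) v' a) (Sum.elim (pp j) v' b) ≠ 0)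
        (inr 0) (inr t) := by
      intro t
      induction t with
      | zero => exact fun _ => Relation.ReflTransGen.refl
      | succ t ih =>
        intro ht
        refine (ih (by omega)).tail ⟨hinr t (by omega), hinr _ ht, fun i e => ?_⟩
        exact hps1.link t ht ((tP i (inr t) (hinr t (by omega)) _).2 e)
    rintro (q | t) hx
    · obtain ⟨q0, hq0⟩ : ∃ q0, nat (T l) kk (X1 l) (v' (len - 1)) (pp j q0) ≠ 0 := by
        by_contra hc
        push Not at hc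
        apply hnot
        rintro _ ⟨q0, rfl⟩
        have := hc q0
        have e : X1 l (v' (len - 1)) = xs := co_eq (hFT l) hlast
        simp only [nat, e, sub_eq_zero, hyj] at this
        rw [hv'l, hTl _ (hjΩ q0)] at this
        rw [this]
        exact congrArg _ (hs.chain.yv_pp (Fin.last N) j q0).symm
      have hM : ∀ a b, nat (T l) kk (X1 l) (pp j a) (pp j b) = d.A a b - ξ a ⬝ᵥ d.y b := by
        intro a b
        have e : X1 l (pp j a) = ξ a := co_eq (hFT l) (hPl a)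
        have e2 : T l (pp j a) (pp j b) = d.A a b :=
          (hag _ (hΩW (hjΩ a)) _ (hΩW (hjΩ b))).trans (hs.chain.pp_left (by simp) a b)
        simp only [nat, e, e2, hyj]
      have hr := sc_reach (M := Matrix.of fun a b => d.A a b - ξ a ⬝ᵥ d.y b) hSC hB q0 q
      refine ((hpath (len - 1) (by omega)).tail (c := inl q0)
        ⟨hinr _ (by omega), hinl q0, fun i e => ?_⟩).trans ?_
      · exact hq0 ((tP i (inr (len - 1)) (hinr _ (by omega)) _).2 e)
      · refine Relation.ReflTransGen.lift (fun q => (inl q : P ⊕ ℕ)) (fun a b h => ?_) _ _ hr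
        refine ⟨hinl a, hinl b, fun i e => h ?_⟩
        have := (tP i (inl a) (hinl a) _).2 e
        rwa [Sum.elim_inl, Sum.elim_inl, hM] at this
    · exact hpath t (hx t rfl)
  · obtain ⟨C, hC⟩ := exists_cols d.y hRed
    refine ⟨C, fun i u a b => ?_⟩
    have f1 : Full (T l) kk (Set.range fun k => pp j (C k)) := fun x hx =>
      perp (fun k => d.y (C k)) hC x fun k => by rw [← hyj]; exact hx _ ⟨k, rfl⟩
    have f2 := (hfam.same l i).full f1
    refine indep (fun k => yv (T i) kk (pp j (C k))) (fun x hx => f2 x ?_) u ?_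
    · rintro _ ⟨k, rfl⟩; exact hx k
    · funext r
      have b' := b r
      have a' := congrArg (· ⬝ᵥ yv (T i) kk (kk r)) a
      simp only [Sum.elim_inl, sum_dotProduct, smul_dotProduct, smul_eq_mul, zero_dotProduct,
        nat, mul_sub, Finset.sum_sub_distrib] at a' b'
      rw [a', sub_zero] at b'
      simp only [Finset.sum_apply, Pi.smul_apply, smul_eq_mul, yv, Pi.zero_apply]
      rw [← neg_eq_zero, ← b', ← Finset.sum_neg_distrib]
      exact Finset.sum_congr rfl fun k _ => by rw [hfam.skew i (pp j (C k)) (kk r)]; ring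
  · exact not_dEq hs hDev hkW (fun q => hΩW (hjΩ q)) hag1 hag
      (fun q => co_eq (hFT i1) (hP1 q)) fun q => co_eq (hFT l) (hPl q)

end AUG2

def STEP2 (F : Type) [Field F] (m : ℕ) : Prop := ∀ (K P : Type) [Fintype K] [Fintype P],
  ∃ p0, ∀ κ n n0, ∃ N, ∀ (E ι : Type) [Fintype E] (d : Datum F K P) (P0 : Set P)
  (col : E → Bool) (S : ι → Matrix E E F) (kk : K → E) (pp : Fin N → P → E)
  (cl : Fin (N + 1) → ι) (Q : Set E) (X : ι → E → K → F),
  Stage m d col S kk pp cl Q X → d.AugIn P0 → NoSep S kk Q pp → Q.ncard ≤ κ →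
  HubOut F K m n0 P0 ∨ ∃ (d' : Datum F K P) (col' : E → Bool) (S' : ι → Matrix E E F)
    (g : Fin n → Fin N) (g' : Fin (n + 1) → Fin (N + 1)) (X' : ι → E → K → F) (e : P ⊕ ℕ → E)
    (len : ℕ) (dv : Fin (N + 1)), d'.AugIn P0 ∧ len ≤ p0 ∧
    Stage m d' col' S' kk (fun j => pp (g j)) (fun j => cl (g' j)) (Q ∪ e '' vl P len) X' ∧
    Piece S' kk X' Q e len ∧
    (∀ i, ∀ u ∈ Q, X' i u = X i u ∧ ∀ w ∈ Q, nat (S' i) kk (X' i) u w = nat (S i) kk (X i) u w) ∧
    (∀ j, ¬DEq (S' (cl dv)) (S' (cl (g' j))) kk (X' (cl dv)) (X' (cl (g' j)))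
      ((fun p => e (inl p)) '' P0)) ∧ NoSep S' kk (Q ∪ e '' vl P len) fun j => pp (g j)

def GROW2 (F : Type) [Field F] (m : ℕ) : Prop := ∀ (K P : Type) [Fintype K] [Fintype P],
  ∃ p0 κ, ∀ T n0, ∃ N, ∀ (d : Datum F K P) (P0 : Set P), RealNS m N d → d.AugIn P0 →
  HubOut F K m n0 P0 ∨ ∃ (E : Type) (_ : Fintype E) (col : E → Bool) (S : Fin T → Matrix E E F)
    (kk : K → E) (X : Fin T → E → K → F) (Q0 : Set E) (e : Fin T → P ⊕ ℕ → E) (len : Fin T → ℕ)
    (pf : P → E), Grown m p0 κ P0 col S kk X Q0 e len pf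

open AUG2 in
theorem step2 {F : Type} [Field F] [Fintype F] (h : SHRINK F) (m : ℕ) : STEP2 F m := by
  classical
  intro K P _ _
  obtain ⟨p0, hsh⟩ := h K
  refine ⟨p0, fun κ n n0 => ?_⟩
  obtain ⟨N3, hN3⟩ := pigeon (Nat.card (Matrix K K F × Matrix K K F ×
    (Fin (κ + Fintype.card P + p0) → Fin (κ + Fintype.card P + p0) → F) ×
    (Fin (κ + Fintype.card P + p0) → K → F))) (n + 1)
  obtain ⟨N2, hN2⟩ := pigeon_or (N3 + 1) (N3 + 1)
  obtain ⟨N1, hN1⟩ := pigeon (Nat.card (K → F)) (N2 + 1)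
  obtain ⟨N0, hN0⟩ := pigeon_or n0 N1
  refine ⟨N0 + 2, ?_⟩
  intro E ι _ d P0 col S kk pp cl Q X hs hA hQ hκ
  obtain ⟨X0, v, p, u0, hp, hX0, hps, hu0, hit, hns⟩ :=
    exists_path2 hs hA.2.1 hQ (by omega)
  let em : Fin N0 ↪o Fin (N0 + 2) := Fin.castLEOrderEmb (by omega)
  rcases hN0 fun t => ¬InSpan (S (cl (Fin.last _))) kk (Set.range (pp (em t))) (v (p - 1)) with
    ⟨g, hg⟩ | ⟨g1, hg1⟩
  · exact Or.inl (hub hs hA (g.trans em) (hps.notQ _ (by omega)) (hps.notO _ (by omega)) hg)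
  right
  choose x hx using fun t => not_not.1 (hg1 t)
  obtain ⟨g2, hg2⟩ := hN1 (K → F) le_rfl x
  let G : Fin (N2 + 1) ↪o Fin (N0 + 2) := (g2.trans g1).trans em
  have hG : ∀ t, Al (S (cl (Fin.last _))) kk (Set.range (pp (G t))) (v (p - 1)) (x (g2 0)) :=
    fun t => hg2 t 0 ▸ hx (g2 t)
  obtain ⟨j, hj⟩ : ∃ j, ¬Al (S (cl (Fin.last _))) kk (Set.range (pp j)) (v (p - 1)) (x (g2 0)) := by
    by_contra hc
    push Not at hc
    refine hns ⟨x (g2 0), ?_⟩
    rintro _ ⟨j, q, rfl⟩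
    exact hc j _ ⟨q, rfl⟩
  have hGj : ∀ t, G t ≠ j := fun t e => hj (e ▸ hG t)
  obtain ⟨g3, side⟩ : ∃ g3 : Fin (N3 + 1) ↪o Fin N2,
      (∀ t, j < G (g3 t).castSucc) ∨ ∀ t, G (g3 t).castSucc < j := by
    rcases hN2 fun t => j < G t.castSucc with ⟨g3, e⟩ | ⟨g3, e⟩
    · exact ⟨g3, Or.inl e⟩
    · exact ⟨g3, Or.inr fun t => lt_of_le_of_ne (not_lt.1 (e t)) (hGj _)⟩
  let g : Fin (N3 + 1) → Fin (N0 + 2) := fun t => G (g3 t).castSucc
  have hg : StrictMono g := G.strictMono.comp (Fin.strictMono_castSucc.comp g3.strictMono)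
  obtain ⟨col', T, X1, v', len, hlen, hpost, Z, hZ⟩ :=
    post2 (g := g) (p0 := p0) hs hA side hp hX0 hps hu0 hit
    (xs := x (g2 0)) (by rintro _ ⟨t, q, rfl⟩; exact hG _ _ ⟨q, rfl⟩) hj
    fun X' Ω hd hP => hsh E ι col S _ _ kk X' Q Ω v p hs.fam hd hs.kQ hp hP
  choose Ψ2 Ψ3 hΨ2 hΨ3 using hpost.psi
  obtain ⟨f, hf⟩ := enum (W := Q ∪ Sum.elim (pp j) v' '' vl P len)
    (M := κ + Fintype.card P + p0) ((card_le Q (pp j) v' len).trans (by omega)) ⟨u0, Or.inl hu0⟩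
  obtain ⟨h0, hh0⟩ := hN3 _ le_rfl fun t => (Ψ2 (cl (g t.castSucc).castSucc),
    Ψ3 (cl (g t.castSucc).castSucc), fun a b => T (cl (g t.castSucc).castSucc) (f a) (f b),
    fun a => X1 (cl (g t.castSucc).castSucc) (f a))
  simp only [Prod.mk.injEq] at hh0
  obtain ⟨d', dv, a, b, c⟩ := finish hs hA hg (fun t => hGj _) hpost
    (h := fun t => (h0 t).castSucc) (Fin.strictMono_castSucc.comp h0.strictMono)
    (Ψ2 := Ψ2 (cl (g (h0 0).castSucc).castSucc)) (Ψ3 := Ψ3 (cl (g (h0 0).castSucc).castSucc))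
    (fun t => by rw [(hh0 0 t).1]; exact hΨ2 _) (fun t => by rw [(hh0 0 t).2.1]; exact hΨ3 _)
    fun t t' => ⟨fun u hu w hw => by
      obtain ⟨a, rfl⟩ := hf hu
      obtain ⟨b, rfl⟩ := hf hw
      exact congrFun (congrFun (hh0 t' t).2.2.1 a) b, fun u hu => by
      obtain ⟨a, rfl⟩ := hf hu
      exact congrFun (hh0 t' t).2.2.2 a⟩
  exact ⟨d', col', T, fun t => g (h0 t.castSucc).castSucc, fun t => (g (h0 t).castSucc).castSucc,
    X1, Sum.elim (pp j) v', len, dv, a, hlen, b, hpost.piece, hpost.keep, c,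
    noSep_mono hQ hZ Set.subset_union_left (hg.comp (Fin.strictMono_castSucc.comp
      (h0.strictMono.comp Fin.strictMono_castSucc)))⟩

theorem grow2 {F : Type} [Field F] [Fintype F] {m : ℕ} (h : STEP2 F m) : GROW2 F m := by
  intro K P _ _
  obtain ⟨p0, hp0⟩ := h K P
  refine ⟨p0, Fintype.card K + Fintype.card P, fun T n0 => ?_⟩
  have key : ∀ t n, ∃ N, ∀ (E ι : Type) [Fintype E] (d : Datum F K P) (P0 : Set P)
      (col : E → Bool) (S : ι → Matrix E E F) (kk : K → E) (pp : Fin N → P → E)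
      (cl : Fin (N + 1) → ι) (Q0 : Set E) (X : ι → E → K → F),
      Stage m d col S kk pp cl Q0 X → d.AugIn P0 → Fintype.card K < Q0.ncard →
      Q0.ncard ≤ Fintype.card K + Fintype.card P → NoSep S kk Q0 pp →
      HubOut F K m n0 P0 ∨ ∃ (d' : Datum F K P) (col' : E → Bool) (S' : ι → Matrix E E F)
        (pp' : Fin n → P → E) (cl' : Fin (n + 1) → ι) (X' : ι → E → K → F)
        (e : ℕ → P ⊕ ℕ → E) (len : ℕ → ℕ) (dv : ℕ → ι),
        Inv m p0 P0 kk Q0 t d' col' S' pp' cl' X' e len dv ∧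
          NoSep S' kk (QN Q0 e len t) pp' := by
    intro t
    induction t with
    | zero =>
      intro n
      refine ⟨n, fun E ι _ d P0 col S kk pp cl Q0 X hs ha h1 _ h3 => Or.inr ?_⟩
      obtain ⟨u, -⟩ : Q0.Nonempty := Set.nonempty_of_ncard_ne_zero (by omega)
      refine ⟨d, col, S, pp, cl, X, fun _ _ => u, fun _ => 0, fun _ => cl 0, ⟨ha, ?_,
        fun s hs => absurd hs (Nat.not_lt_zero s), fun s hs => absurd hs (Nat.not_lt_zero s),
        fun s s' _ hs => absurd hs (Nat.not_lt_zero s'),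
        fun s hs => absurd hs (Nat.not_lt_zero s),
        fun s s' _ hs => absurd hs (Nat.not_lt_zero s'),
        fun s hs => absurd hs (Nat.not_lt_zero s)⟩, ?_⟩
      · rwa [QN_zero]
      · rwa [QN_zero]
    | succ t ih =>
      intro n
      obtain ⟨N1, hN1⟩ := hp0 (Fintype.card K + Fintype.card P + t * (Fintype.card P + p0)) n n0
      obtain ⟨N, hN⟩ := ih N1
      refine ⟨N, fun E ι _ d P0 col S kk pp cl Q0 X hs ha h1 h2 h3 => ?_⟩
      rcases hN E ι d P0 col S kk pp cl Q0 X hs ha h1 h2 h3 with hh |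
        ⟨d', col', S', pp', cl', X', e, len, dv, hi, hlow⟩
      · exact Or.inl hh
      · have hup := ncard_QN Q0 e len t hi.len_le
        rcases hN1 E ι d' P0 col' S' kk pp' cl' _ X' hi.stage hi.aug hlow (by omega) with hh |
          ⟨d2, col2, S2, g, g', X2, e1, l1, d1, b1, b2, b3, b4, b5, b6, b7⟩
        · exact Or.inl hh
        · refine Or.inr ⟨d2, col2, S2, _, _, X2, _, _, _, hi.succ hs.kQ b1 b2 b3 b4 b5 b6, ?_⟩
          rwa [QN_succ, QN_congr Q0 (e := e) (len := len)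
            (fun u hu => Function.update_of_ne (by omega) _ _)
            (fun u hu => Function.update_of_ne (by omega) _ _), Function.update_self,
            Function.update_self]
  obtain ⟨N, hN⟩ := key T 1
  refine ⟨N, fun d P0 hR ha => ?_⟩
  obtain ⟨E, ι, _, col, S, kk, pp, cl, Q0, X, hs, h1, h2, h3⟩ := hR
  rcases hN E _ d P0 col S kk _ _ Q0 X hs ha h1 h2 h3 with hh |
    ⟨d', col', S', pp', cl', X', e, len, dv, hi, -⟩
  · exact Or.inl hh
  · exact Or.inr ⟨E, inferInstance, col', _, kk, _, Q0, _, _, _, hi.grown hs.kQ h2⟩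

theorem aug2 {F : Type} [Field F] [Fintype F] {m : ℕ} (hg : GROW2 F m) (hh : HUB F m)
    (hs : STAR F m) (hp : PATH F m) : AUG2 F m := by
  intro K P _ _ d P0 hreal hin
  obtain ⟨p0, κ, hG⟩ := hg K P
  obtain ⟨l0, hP⟩ := hp K P p0
  have key : ∀ n, ∃ i, AUG.Out F m K P0 p0 l0 i n := by
    intro n
    obtain ⟨n0, hH⟩ := hh K P n
    obtain ⟨n1, hS⟩ := hs K P p0 n
    obtain ⟨L, hL⟩ := hP n
    obtain ⟨T, hT⟩ := AUG.star_or_path (F := F) P p0 κ n1 L
    obtain ⟨N, hN⟩ := hG T n0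
    rcases hN d P0 (hreal N) hin with hub | ⟨E, _, col, S, kk, X, Q0, e, len, pf, hgr⟩
    · obtain ⟨d', h1, h2⟩ := hH P0 hub
      exact ⟨.inl (), d', h1, by rwa [Set.image_id]⟩
    · rcases hT K E m P0 col S kk X Q0 e len pf hgr with ⟨u, g, hu⟩ | ⟨g, h1, h2⟩
      · obtain ⟨p, hp, d', h3, h4⟩ := hS κ T P0 E col S kk X Q0 e len pf hgr u g hu
        exact ⟨.inr (.inl ⟨p, Nat.lt_succ_of_le hp⟩), d', h3, h4⟩
      · obtain ⟨p, hp, l, hl, d', h3, h4⟩ := hL κ T P0 E col S kk X Q0 e len pf hgr g h1 h2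
        exact ⟨.inr (.inr (⟨p, Nat.lt_succ_of_le hp⟩, ⟨l, Nat.lt_succ_of_le hl⟩)), d', h3, h4⟩
  obtain ⟨i, hi⟩ := finite_antitone (AUG.Out F m K P0 p0 l0) (by
    rintro (i | i | i) n n' hn h
    · exact AUG.Sh.mono hn h
    · exact AUG.Sh.mono hn h
    · exact AUG.Sh.mono hn h) key
  rcases i with i | i | i
  · exact AUG.Sh.real hi
  · exact AUG.Sh.real hi
  · exact AUG.Sh.real hi

end Pool.Agent.MP_d99b12_co.H86
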