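import Pool.Agent.MP_d99b12_co.H86.Spec
import Pool.Agent.MP_d99b12_co.H25.ChainB

/-! # From separations to closed components -/

namespace Pool.Agent.MP_d99b12_co.H86

open Matrix Sum H25

theorem comp {F : Type} [Field F] [Fintype F] (m : ℕ) : COMP F m := by
  classical
  intro K P _ _ d hU hd hR n
  obtain ⟨E, _, col, S, kk, pp, hF, hC, h, hs⟩ := hR (2 * n)
  set σ := S (Fin.last (2 * n)) with hσ
  let a : Fin n → Fin (2 * n) := fun t => ⟨2 * t.val, by omega⟩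
  let b : Fin n → Fin (2 * n) := fun t => ⟨2 * t.val + 1, by omega⟩
  have hW : ∀ (t : Fin n) (i : Fin (2 * n)), ∃ W : Set E, i.val / 2 ≠ t.val →
      Set.range kk ∪ Set.range (pp i) ⊆ W ∧ Disjoint W (Set.range (pp (a t)) ∪ Set.range (pp (b t))) ∧
        RkLE σ W Wᶜ (Fintype.card K) := by
    intro t i
    by_cases hi : i.val / 2 = t.val
    · exact ⟨∅, fun h' => absurd hi h'⟩
    · obtain ⟨W, hW⟩ := hs i (a t) (b t) (Fin.mk_lt_mk.2 (Nat.lt_succ_self _)) (by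
        simp only [Fin.lt_def, a, b]
        omega)
      exact ⟨W, fun _ => hW⟩
  choose W hW using hW
  let Ω0 : Fin n → Set E := fun t =>
    {w | w ∉ Set.range kk ∧ ∀ i : Fin (2 * n), i.val / 2 ≠ t.val → w ∉ W t i}
  have s0 : ∀ t j p, j.val / 2 = t.val → pp j p ∈ Ω0 t := by
    intro t j p hj
    refine ⟨fun ⟨k, e⟩ => h.kk_ne_pp k j p e, fun i hi hw => ?_⟩
    refine Set.disjoint_left.1 (hW t i hi).2.1 hw ?_
    rcases (by omega : j.val = 2 * t.val ∨ j.val = 2 * t.val + 1) with e | e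
    · exact Or.inl ⟨p, by rw [show a t = j from Fin.ext e.symm]⟩
    · exact Or.inr ⟨p, by rw [show b t = j from Fin.ext e.symm]⟩
  have ha : ∀ t, (a t).val / 2 = t.val := fun t => by
    simp only [a]
    omega
  have n0 : ∀ t j p, j.val / 2 ≠ t.val → pp j p ∉ Ω0 t := fun t j p hj hw =>
    hw.2 j hj ((hW t j hj).1 (Or.inr ⟨p, rfl⟩))
  have c0 : ∀ t u, u ∉ Ω0 t → InSpan σ kk (Ω0 t) u := by
    intro t u hu
    by_cases hk : u ∈ Set.range kk
    · obtain ⟨k, rfl⟩ := hk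
      exact ⟨Pi.single k 1, fun w _ => by simp [yv]⟩
    · obtain ⟨i, hi, hw⟩ : ∃ i : Fin (2 * n), i.val / 2 ≠ t.val ∧ u ∈ W t i := by
        by_contra hc
        exact hu ⟨hk, fun i hi hw => hc ⟨i, hi, hw⟩⟩
      obtain ⟨w1, w2, w3⟩ := hW t i hi
      have hf : Full σ kk (W t i)ᶜ := (h.full hd _ (a t)).mono fun e he hw =>
        Set.disjoint_left.1 w2 hw (Or.inl he)
      obtain ⟨x, hx⟩ : InSpan σ kk (W t i)ᶜ u := by_contra fun hc =>
        not_rkLE_of_full hf hc (fun k => w1 (Or.inl ⟨k, rfl⟩)) hw w3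
      exact ⟨x, hx.mono fun w hw => hw.2 i hi⟩
  have z0 : ∀ t u, u ∉ Ω0 t → (∀ q, σ u (pp (a t) q) = 0) → ∀ w ∈ Ω0 t, σ u w = 0 := by
    intro t u hu h0 w hw
    obtain ⟨x, hx⟩ := c0 t u hu
    have : x = 0 := hd x fun q => by
      rw [← h.yv_pp (Fin.last _) (a t) q, ← hx _ (s0 t _ q (ha t)), h0]
    rw [hx w hw, this, zero_dotProduct]
  have z1 : ∀ t j p, j.val / 2 ≠ t.val → ∀ w ∈ Ω0 t, σ (pp j p) w = 0 := by
    intro t j p hj
    refine z0 t _ (n0 t j p hj) fun q => ?_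
    rcases lt_trichotomy j (a t) with e | e | e
    · rw [hσ, h.pp_lt _ e, hU]
      rfl
    · exact absurd (e ▸ ha t) hj
    · rw [hσ, h.pp_gt _ e, hU]
      simp
  have z2 : ∀ t t', t ≠ t' → ∀ w ∈ Ω0 t, w ∉ Ω0 t' → ∀ u ∈ Ω0 t', σ w u = 0 := by
    intro t t' ht w hw hw'
    refine z0 t' w hw' fun q => ?_
    rw [hσ, hF.zero_comm]
    exact z1 t _ q (by rw [ha]; exact fun e => ht (Fin.ext e.symm)) w hw
  refine ⟨E, inferInstance, col, S, kk, pp, fun t => {w | w ∈ Ω0 t ∧ ∀ t', t' ≠ t → w ∉ Ω0 t'},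
    hF, hC, h, fun t j p hj => ⟨s0 t j p hj, fun t' ht => n0 t' j p ?_⟩,
    fun t k hk => hk.1.1 ⟨k, rfl⟩, fun t t' ht => ?_, fun i t t' ht u hu w hw => ?_,
    fun i t u hu => (hF.same (Fin.last _) i).inSpan ?_⟩
  · rw [hj]
    exact fun e => ht (Fin.ext e.symm)
  · exact Set.disjoint_left.2 fun w hw hw' => hw.2 t' ht.symm hw'.1
  · exact (hF.zero_iff (Fin.last _) i u w).1 (z2 t t' ht u hu.1 (hu.2 t' ht.symm) w hw.1)
  · by_cases h0 : u ∈ Ω0 t
    · obtain ⟨t', ht, hu'⟩ : ∃ t', t' ≠ t ∧ u ∈ Ω0 t' := by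
        by_contra hc
        exact hu ⟨h0, fun t' ht hw => hc ⟨t', ht, hw⟩⟩
      refine ⟨0, fun w hw => ?_⟩
      rw [zero_dotProduct, hF.zero_comm]
      exact z2 t t' ht.symm w hw.1 (hw.2 t' ht) u hu'
    · obtain ⟨x, hx⟩ := c0 t u h0
      exact ⟨x, hx.mono fun w hw => hw.1⟩

end Pool.Agent.MP_d99b12_co.H86
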