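import Pool.Agent.MP_d99b12_co.H86.Spec
import Pool.Agent.MP_d99b12_co.H25.ChainB

/-! # Either no separation at all or all separations -/

namespace Pool.Agent.MP_d99b12_co.H86

open Matrix Sum H25

namespace DICH

variable {F : Type} [Field F] {E K P : Type} [Fintype E] [Fintype K] [Fintype P]

omit [Fintype K] [Fintype P] in
lemma sep_same {S T : Matrix E E F} (h : Same S T) {l : ℕ} {Q Y : Set E} (hs : Sep S l Q Y) :
    Sep T l Q Y := by
  obtain ⟨W, a, b, c⟩ := hs
  exact ⟨W, a, b, h.rkLE c⟩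

/-- The core and an extreme petal give a first stage. -/
lemma stage {m M N : ℕ} {d : Datum F K P} {P0 : Set P} {col : E → Bool}
    {S : Fin (M + 1) → Matrix E E F} {kk : K → E} {pp : Fin M → P → E} (hF : Fam col S)
    (hC : ∀ i, Conn m (S i)) (h : IsChain d col S kk pp) (ha : d.AugIn P0) (j0 : Fin M)
    {g : Fin N → Fin M} (hg : StrictMono g) {g' : Fin (N + 1) → Fin (M + 1)}
    (h1 : ∀ j : Fin N, g' j.castSucc = (g j).castSucc) (h2 : ∀ j, (g j).val < (g' (Fin.last N)).val)
    (side : (∀ t, j0 < g t) ∨ ∀ t, g t < j0)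
    (hag : ∀ i i' p q, S (g' i) (pp j0 p) (pp j0 q) = S (g' i') (pp j0 p) (pp j0 q))
    (hns : ∀ j l, j < l → ¬Sep (S (Fin.last M)) (Fintype.card K)
      (Set.range kk ∪ Set.range (pp j0)) (Set.range (pp (g j)) ∪ Set.range (pp (g l)))) :
    RealNS m N d := by
  classical
  have hP : 0 < Fintype.card P := by
    rw [Fintype.card_pos_iff]
    by_contra hP
    exact ha.2.2.2 ⟨1, fun p _ => absurd ⟨p⟩ hP, fun p _ => absurd ⟨p⟩ hP⟩
  have hcard : (Set.range (Sum.elim kk (pp j0))).ncard = Fintype.card K + Fintype.card P := by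
    rw [Set.ncard_range_of_injective (h.elim_inj j0), Nat.card_eq_fintype_card, Fintype.card_sum]
  have hX : ∀ u : E, ∃ x : K → F, u ∈ Set.range (Sum.elim kk (pp j0)) →
      ∀ i, Al (S i) kk (petals fun j : Fin N => pp (g j)) u x := by
    intro u
    by_cases hu : u ∈ Set.range (Sum.elim kk (pp j0))
    · obtain ⟨k | p, rfl⟩ := hu
      · refine ⟨Pi.single k 1, fun _ i b _ => ?_⟩
        simp [yv]
      · rcases side with hs | hs
        · obtain ⟨x, hx⟩ := ha.1.1 p
          refine ⟨x, fun _ i => ?_⟩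
          rintro _ ⟨j, q, rfl⟩
          rw [h.yv_pp, ← hx q]
          exact h.pp_lt i (hs j) p q
        · obtain ⟨x, hx⟩ := ha.1.2 p
          refine ⟨-x, fun _ i => ?_⟩
          rintro _ ⟨j, q, rfl⟩
          rw [h.yv_pp, neg_dotProduct, ← hx q]
          exact h.pp_gt i (hs j) p q
    · exact ⟨0, fun h' => absurd h' hu⟩
  choose X hX using hX
  refine ⟨E, _, inferInstance, col, S, kk, fun j => pp (g j), g', Set.range (Sum.elim kk (pp j0)),
    fun _ => X, ⟨hF, hC, h.sub' hg h1 h2, fun k => ⟨inl k, rfl⟩, ?_,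
    fun i u hu => hX u hu i, fun i j => ⟨?_, fun _ _ => rfl⟩⟩, by omega, hcard.le,
    fun i j l hjl hs => hns j l hjl ?_⟩
  · rintro j p ⟨k | q, hk⟩
    · exact h.kk_ne_pp k _ p hk
    · rcases side with hs | hs
      · exact (hs j).ne (h.pp_inj hk).1
      · exact (hs j).ne' (h.pp_inj hk).1
  · rintro _ ⟨k | p, rfl⟩ _ ⟨k' | q, rfl⟩
    · exact (h.kk_kk _ k k').trans (h.kk_kk _ k k').symm
    · exact (h.kk_pp _ k _ q).trans (h.kk_pp _ k _ q).symm
    · exact (h.pp_kk _ k' _ p).trans (h.pp_kk _ k' _ p).symm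
    · exact hag j i p q
  · rw [← Set.Sum.elim_range]
    exact sep_same (hF.same i _) hs

end DICH

theorem dich {F : Type} [Field F] [Fintype F] (m : ℕ) : DICH F m := by
  classical
  intro K P _ _ d P0 hR ha
  rw [or_iff_not_imp_left]
  intro hn n
  obtain ⟨N, hN⟩ := not_forall.1 hn
  obtain ⟨N1, hN1⟩ := pigeon (Nat.card (P → P → F)) (N + 1)
  obtain ⟨M, hM⟩ := ramsey3 (Prop × Prop) (n + N + N1 + 3)
  obtain ⟨E, _, col, S, kk, pp, hF, hC, h⟩ := hR M
  let sp : Fin M → Fin M → Fin M → Prop := fun i j l => Sep (S (Fin.last M)) (Fintype.card K)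
    (Set.range kk ∪ Set.range (pp i)) (Set.range (pp j) ∪ Set.range (pp l))
  obtain ⟨g, hg⟩ := hM fun i j l => (sp i j l, sp l i j)
  simp only [Prod.mk.injEq] at hg
  have c1 : ∀ i j l, i < j → j < l → sp (g i) (g j) (g l) := by
    intro i j l hij hjl
    by_contra hc
    let e : Fin (N + 1) → Fin (n + N + N1 + 3) := fun t => ⟨t.val + 1, by omega⟩
    have he : StrictMono e := fun t t' ht => Fin.mk_lt_mk.2 (Nat.succ_lt_succ ht)
    have h0 : ∀ t, (0 : Fin (n + N + N1 + 3)) < e t := fun t => Fin.mk_lt_mk.2 (Nat.succ_pos _)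
    refine hN (DICH.stage hF hC h ha (g 0) (g := fun t => g (e t.castSucc))
      (g.strictMono.comp (he.comp Fin.strictMono_castSucc)) (g' := fun t => (g (e t)).castSucc)
      (fun _ => rfl) (fun t => g.strictMono (he (Fin.castSucc_lt_last t)))
      (Or.inl fun t => g.strictMono (h0 _)) (fun t t' p q => ?_) fun t t' ht hs => hc ?_)
    · exact (h.pp_left (i := (g (e t)).castSucc) (g.strictMono (h0 t)) p q).trans
        (h.pp_left (i := (g (e t')).castSucc) (g.strictMono (h0 t')) p q).symm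
    · rw [(hg i j l 0 _ _ hij hjl (h0 t.castSucc) (he (Fin.castSucc_lt_castSucc_iff.2 ht))).1]
      exact hs
  have c2 : ∀ i j l, i < j → j < l → sp (g l) (g i) (g j) := by
    intro i j l hij hjl
    by_contra hc
    let z : Fin (n + N + N1 + 3) := Fin.last _
    let e0 : Fin N1 → Fin (n + N + N1 + 3) := fun t => ⟨t.val, by omega⟩
    obtain ⟨g1, hg1⟩ := hN1 (P → P → F) le_rfl fun t p q =>
      S (g (e0 t)).castSucc (pp (g z) p) (pp (g z) q)
    let e : Fin (N + 1) → Fin (n + N + N1 + 3) := fun t => e0 (g1 t)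
    have he : StrictMono e := fun t t' ht => Fin.mk_lt_mk.2 (g1.strictMono ht)
    have h0 : ∀ t, e t < z := fun t => by
      have := (g1 t).isLt
      simp only [Fin.lt_def, e, e0, z, Fin.val_last]
      omega
    refine hN (DICH.stage hF hC h ha (g z) (g := fun t => g (e t.castSucc))
      (g.strictMono.comp (he.comp Fin.strictMono_castSucc)) (g' := fun t => (g (e t)).castSucc)
      (fun _ => rfl) (fun t => g.strictMono (he (Fin.castSucc_lt_last t)))
      (Or.inr fun t => g.strictMono (h0 _)) (fun t t' p q => congrFun (congrFun (hg1 t t') p) q)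
      fun t t' ht hs => hc ?_)
    rw [(hg i j l _ _ z hij hjl (he (Fin.castSucc_lt_castSucc_iff.2 ht)) (h0 t'.castSucc)).2]
    exact hs
  let e : Fin n → Fin (n + N + N1 + 3) := fun t => ⟨t.val, by omega⟩
  have he : StrictMono e := fun t t' ht => Fin.mk_lt_mk.2 ht
  let g' : Fin (n + 1) → Fin (M + 1) := Fin.lastCases (Fin.last M) fun t => (g (e t)).castSucc
  have hl : g' (Fin.last n) = Fin.last M := by simp [g']
  refine ⟨E, inferInstance, col, fun i => S (g' i), kk, fun t => pp (g (e t)), hF.reindex _,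
    fun i => hC _, h.sub' (g.strictMono.comp he) (fun j => by simp [g'])
      (fun j => by rw [hl]; simp), fun i j l hjl hi => ?_⟩
  simp only [hl]
  rcases hi with hi | hi
  · exact c1 _ _ _ (he hi) (he hjl)
  · exact c2 _ _ _ (he hjl) (he hi)

end Pool.Agent.MP_d99b12_co.H86
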