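import Pool.Agent.MP_d99b12_co.H86.FLAT
import Pool.Agent.MP_d99b12_co.H86.DICH
import Pool.Agent.MP_d99b12_co.H86.COMP
import Pool.Agent.MP_d99b12_co.H86.AUG2
import Pool.Agent.MP_d99b12_co.H25.Final
import Pool.Agent.MP_d99b12_co.H25.Spec2

/-! # Every datum leads to a flat datum with closed components -/

namespace Pool.Agent.MP_d99b12_co.H86

open Matrix Sum H25

variable {F : Type} [Field F] [Fintype F]

/-- A visible pair survives an augmentation. -/
lemma up {m l : ℕ} {K P : Type} [Fintype K] [Fintype P] {d : Datum F K P} {a b : P}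
    (g1 : Real m d) (h : d.AugOut l {a, b}) :
    ∃ d' : Datum F K P, Real m d' ∧ d'.Ref ∧ NConn d'.B ∧ l < d'.V.rank ∧ d'.Vis := by
  obtain ⟨g2, g3, g4, Z, M, g5, g6⟩ := h
  have g7 : ∃ O ⊆ Set.range (inl : K → K ⊕ P), AgreeOn (Set.range inl) (M false) (M true) →
      DevP O (M false) (M true) {inr a, inr b} ∧ Par O (M false) (M true) (inr a) ∧
        Par O (M false) (M true) (inr b) := by
    by_cases hA : AgreeOn (Set.range inl) (M false) (M true)
    · obtain ⟨O, o1, o2, o3⟩ := g6 hA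
      rw [Set.image_pair] at o2
      exact ⟨O, o1, fun _ => ⟨o2, o3 _ (by simp), o3 _ (by simp)⟩⟩
    · exact ⟨∅, Set.empty_subset _, fun h => absurd h hA⟩
  obtain ⟨O, o1, o2⟩ := g7
  have g8 := mid1 _ d.dsp (Set.range inl) (inr '' Z) O M _ _ g1.alg.fam_pair
    (PLAY.parAll (hp m) g1 g2) (by rintro _ ⟨k, rfl⟩ _ ⟨k', rfl⟩; rfl)
    (Set.disjoint_left.2 (by rintro _ ⟨p, -, rfl⟩; exact PLAY.inr_notMem p)) g5 (PLAY.inr_notMem _)
    (PLAY.inr_notMem _) o1 o2
  obtain ⟨d', e1, e2, e3, e4, e5⟩ := PLAY.vis (hp m) g1 g2 g8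
  exact ⟨d', e1, e2, e4 g3, by omega, e5⟩

theorem closed2 {m L : ℕ} (hL : ALG F L) (t : ℕ) : ∀ (K P : Type) [Fintype K] [Fintype P]
    (d : Datum F K P), Real m d → d.Ref → d.Red → NConn d.B → d.Tau0 → d.Vis →
    2 ≤ Fintype.card K → L < Fintype.card K + t →
    ∃ (K' P' : Type) (_ : Fintype K') (_ : Fintype P') (d' : Datum F K' P'), Real m d' ∧ Good d' ∧
      Fintype.card K ≤ Fintype.card K' ∧ ∀ n, RealC m n d' := by
  induction t with
  | zero =>
    intro K P _ _ d hR hr hd hc ht hv _ hl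
    have := hL K P d hR.alg hr hd hc ht hv
    omega
  | succ t ih =>
    intro K P _ _ d hR hr hd hc ht hv h2 hl
    obtain ⟨K1, _, d1, r1, g1, k1⟩ := flat m K P d hR hr hd hc ht hv
    have hU := g1.flat
    have hr1 : d1.Ref := ⟨fun p => ⟨0, fun q => by simp [hU]⟩, fun p => ⟨0, fun q => by simp [hU]⟩⟩
    have ht1 : d1.Tau0 := fun p q => by simp [hU]
    obtain ⟨a, b, hab⟩ := g1.vis
    have hin : d1.AugIn {a, b} := ⟨hr1, g1.red, r1.alg.sc ht1 g1.conn, hab⟩
    rcases dich m K1 P d1 _ r1 hin with hns | hcl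
    · obtain ⟨K2, P2, _, _, d2, ι, r2, o2⟩ := aug2 (grow2 (step2 (shrink idl) m)) (hub hom m)
        (star hom m) (path idl hom m) K1 P d1 _ hns hin
      rw [Set.image_pair] at o2
      obtain ⟨d3, r3, f1, f2, f3, f4⟩ := up r2 o2
      obtain ⟨R, e1, e2, e3, e4⟩ := f1.exists_red
      have e5 : Fintype.card R = d3.V.rank := by rw [Fintype.card_coe, e3]
      have e6 := r3.resK (f := (Subtype.val : R → K2)) Subtype.val_injective
      have e7 : (d3.resK (Subtype.val : R → K2)).Vis := f4.imp fun _ h => h.imp fun _ h => e4 _ h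
      have e8 := a1 sys (a1s sreb zp (c1 zp reb (c1pre zp reb)) (zt sreb zp)) R P2 _ e6.alg e1 e2 f2
        e7 (by omega)
      obtain ⟨K', P', _, _, d', a1, a2, a3, a4⟩ :=
        ih R P2 _ e6 e1 e2 f2 e8 e7 (by omega) (by omega)
      exact ⟨K', P', inferInstance, inferInstance, d', a1, a2, by omega, a4⟩
    · exact ⟨K1, P, inferInstance, inferInstance, d1, r1, g1, k1, comp m K1 P d1 hU g1.red hcl⟩

theorem closed (m : ℕ) : CLOSED F m := by
  rintro hm ⟨L, hL⟩ K P _ _ d hR hr hd hc ht hv hK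
  obtain ⟨K', P', _, _, d', -, g, hc', h⟩ :=
    closed2 hL L K P d hR hr hd hc ht hv (by omega) (by omega)
  refine ⟨K', P', inferInstance, inferInstance, d', g.flat, g.red, g.conn, g.vis, by omega, fun n => ?_⟩
  obtain ⟨E, _, col, S, kk, pp, Ω, hF, hC, hch, h1, h2, h3, h4, h5⟩ := h n
  refine ⟨E, _, col, 2 * n, S, kk, pp, fun t => ⟨2 * t.val, by omega⟩,
    fun t => ⟨2 * t.val + 1, by omega⟩, Ω, hF, hC, hch, fun t t' ht => ?_, fun t e => ?_,
    fun t p => ⟨h1 t _ p ?_, h1 t _ p ?_⟩, fun t => ⟨h2 t, h5 _ t⟩,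
    fun t t' ht => ⟨h3 t t' ht, h4 _ t t' ht⟩⟩
  · simp only [Fin.lt_def] at ht ⊢
    omega
  · simp at e
  · simp only
    omega
  · simp only
    omega

end Pool.Agent.MP_d99b12_co.H86
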