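import Pool.Agent.MP_d99b12_co.H86.Spec
import Pool.Agent.MP_d99b12_co.H25.STEP1

/-! # The flat display: a pivot between the core and one petal removes the block `U` -/

namespace Pool.Agent.MP_d99b12_co.H86

open Matrix Sum H25

namespace FLAT

variable {F : Type} [Field F] {E K P : Type} [Fintype E]

lemma piv_col {S S' : Matrix E E F} {Z : Set E} (h : IsPiv S S' Z) (u v : E → F)
    (h1 : ∀ z ∈ Z, v z = 0) (h2 : ∀ z, z ∉ Z → v z = u z) (h0 : ∀ z ∈ Z, (S *ᵥ u) z = 0) {x : E}
    (hx : x ∉ Z) : (S' *ᵥ v) x = (S *ᵥ u) x := by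
  classical
  have e := (h u _).1 rfl
  have e1 : (open Classical in Z.piecewise (S *ᵥ u) u) = v := by
    funext z
    by_cases hz : z ∈ Z
    · simp [hz, h0 z hz, h1 z hz]
    · simp [hz, h2 z hz]
  rw [e1] at e
  rw [← e]
  simp [hx]

lemma piv_ker {S S' : Matrix E E F} {Z : Set E} (h : IsPiv S S' Z) (u : E → F)
    (h1 : ∀ z ∈ Z, u z = 0) (h0 : ∀ z ∈ Z, (S *ᵥ u) z = 0) : S' *ᵥ u = S *ᵥ u := by
  classical
  have e := (h u _).1 rfl
  have e1 : (open Classical in Z.piecewise (S *ᵥ u) u) = u := by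
    funext z
    by_cases hz : z ∈ Z
    · simp [hz, h0 z hz, h1 z hz]
    · simp [hz]
  rw [e1] at e
  rw [← e]
  funext z
  by_cases hz : z ∈ Z
  · simp [hz, h0 z hz, h1 z hz]
  · simp [hz]

lemma mulVec_supp {I : Type} [Fintype I] (S : Matrix E E F) {f : I → E} (hf : Function.Injective f)
    (u : E → F) (hu : ∀ e, e ∉ Set.range f → u e = 0) (x : E) :
    (S *ᵥ u) x = ∑ i, S x (f i) * u (f i) := by
  classical
  simp only [mulVec, dotProduct]
  symm
  refine Finset.sum_of_injOn f (fun _ _ _ _ h => hf h) (by simp) ?_ fun _ _ => rfl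
  intro e _ he
  rw [hu e (by simpa using he), mul_zero]

lemma mulVec_extend {I : Type} [Fintype I] (S : Matrix E E F) {f : I → E}
    (hf : Function.Injective f) (u : I → F) (x : E) :
    (S *ᵥ Function.extend f u 0) x = ∑ i, S x (f i) * u i := by
  rw [mulVec_supp S hf _ fun e he => Function.extend_apply' u (0 : E → F) e he]
  exact Finset.sum_congr rfl fun i _ => by rw [hf.extend_apply]

variable [Fintype K] {n : ℕ} {d : Datum F K P} {col : E → Bool}
  {S : Fin (n + 1) → Matrix E E F} {kk : K → E} {pp : Fin n → P → E}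

/-- The pivot set: one colour class of the core and a basis of columns in the petal `j`. -/
def ZZ (d : Datum F K P) (kk : K → E) (f : P → E) (C : K → P) : Set E :=
  {e | (∃ k, d.colK k = true ∧ kk k = e) ∨ ∃ c, d.colP (C c) = false ∧ f (C c) = e}

omit [Fintype K] in
lemma V_col (hF : Fam col S) (h : IsChain d col S kk pp) (j : Fin n) {k : K} {q : P}
    (hc : d.colK k = d.colP q) : d.V k q = 0 := by
  rw [← h.kk_pp 0 k j q]
  exact hF.bip _ _ _ (by rw [h.colK, h.colP, hc])

lemma not_dep (hF : Fam col S) (h : IsChain d col S kk pp) (j : Fin n) {C : K → P}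
    (hC : ∀ u : K → F, ∑ k, u k • d.y (C k) = 0 → u = 0) (i : Fin (n + 1)) :
    ¬Dep (S i) (ZZ d kk (pp j) C) (ZZ d kk (pp j) C) := by
  classical
  rintro ⟨u, h0, h1, h2⟩
  have hCi : Function.Injective C := by
    intro a b e
    by_contra hne
    have := hC (Pi.single a 1 - Pi.single b 1) (by
      simp only [Pi.sub_apply, sub_smul, Finset.sum_sub_distrib, Pi.single_apply, ite_smul,
        one_smul, zero_smul, Finset.sum_ite_eq', Finset.mem_univ, if_true, e, sub_self])
    have := congrFun this a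
    simp [Ne.symm hne] at this
  have hf : Function.Injective (Sum.elim kk fun c => pp j (C c)) := by
    rintro (a | a) (b | b) e
    · rw [h.kk_inj e]
    · exact absurd e (h.kk_ne_pp _ _ _)
    · exact absurd e.symm (h.kk_ne_pp _ _ _)
    · rw [hCi (h.pp_inj e).2]
  have hs : ∀ e, e ∉ Set.range (Sum.elim kk fun c => pp j (C c)) → u e = 0 := by
    intro e he
    refine h1 e ?_
    rintro (⟨k, -, rfl⟩ | ⟨c, -, rfl⟩)
    · exact he ⟨inl k, rfl⟩
    · exact he ⟨inr c, rfl⟩
  have ha : ∀ k, d.colK k = false → u (kk k) = 0 := by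
    intro k hk
    refine h1 _ ?_
    rintro (⟨k', e1, e2⟩ | ⟨c, -, e2⟩)
    · rw [h.kk_inj e2, hk] at e1
      exact Bool.false_ne_true e1
    · exact h.kk_ne_pp _ _ _ e2.symm
  have hb : ∀ c, d.colP (C c) = true → u (pp j (C c)) = 0 := by
    intro c hc
    refine h1 _ ?_
    rintro (⟨k', -, e2⟩ | ⟨c', e1, e2⟩)
    · exact h.kk_ne_pp _ _ _ e2
    · rw [(h.pp_inj e2).2, hc] at e1
      exact Bool.false_ne_true e1.symm
  have hβ : (fun c => u (pp j (C c))) = 0 := by
    refine hC _ (funext fun k => ?_)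
    rw [Finset.sum_apply]
    change ∑ c, u (pp j (C c)) * d.V k (C c) = 0
    cases hk : d.colK k
    · refine Finset.sum_eq_zero fun c _ => ?_
      cases hc : d.colP (C c)
      · rw [V_col hF h j (hk.trans hc.symm), mul_zero]
      · rw [hb c hc, zero_mul]
    · have e := h2 (kk k) (Or.inl ⟨k, hk, rfl⟩)
      rw [mulVec_supp _ hf u hs, Fintype.sum_sum_type] at e
      have e1 : ∑ k', S i (kk k) (kk k') * u (kk k') = 0 := by
        refine Finset.sum_eq_zero fun k' _ => ?_
        cases hk' : d.colK k'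
        · rw [ha k' hk', mul_zero]
        · rw [hF.bip i _ _ (by rw [h.colK, h.colK, hk, hk']), zero_mul]
      simp only [Sum.elim_inl, Sum.elim_inr] at e
      rw [e1, zero_add] at e
      rw [← e]
      exact Finset.sum_congr rfl fun c _ => by rw [h.kk_pp, mul_comm]
  have hα : (fun k => u (kk k)) = 0 := by
    refine STEP.perp (fun c => d.y (C c)) hC _ fun c => ?_
    change ∑ k, u (kk k) * d.V k (C c) = 0
    cases hc : d.colP (C c)
    · have e := h2 (pp j (C c)) (Or.inr ⟨c, hc, rfl⟩)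
      rw [mulVec_supp _ hf u hs, Fintype.sum_sum_type] at e
      have e1 : ∑ c', S i (pp j (C c)) (pp j (C c')) * u (pp j (C c')) = 0 :=
        Finset.sum_eq_zero fun c' _ => by rw [congrFun hβ c', Pi.zero_apply, mul_zero]
      simp only [Sum.elim_inl, Sum.elim_inr] at e
      rw [e1, add_zero] at e
      rw [← neg_eq_zero, ← e, ← Finset.sum_neg_distrib]
      exact Finset.sum_congr rfl fun k _ => by rw [h.pp_kk]; ring
    · refine Finset.sum_eq_zero fun k _ => ?_
      cases hk : d.colK k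
      · rw [ha k hk, zero_mul]
      · rw [V_col hF h j (hk.trans hc.symm), mul_zero]
  apply h0
  funext e
  by_cases he : e ∈ Set.range (Sum.elim kk fun c => pp j (C c))
  · obtain ⟨k | c, rfl⟩ := he
    · exact congrFun hα k
    · exact congrFun hβ c
  · exact hs e he

omit [Fintype E] [Fintype K] in
lemma notMem (h : IsChain d col S kk pp) {j0 j : Fin n} (hj : j0 < j) (C : K → P) (q : P) :
    pp j q ∉ ZZ d kk (pp j0) C := by
  rintro (⟨k, -, e⟩ | ⟨c, -, e⟩)
  · exact h.kk_ne_pp _ _ _ e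
  · exact hj.ne (h.pp_inj e).1

omit [Fintype E] [Fintype K] in
lemma single_zero [DecidableEq E] (h : IsChain d col S kk pp) {j0 j : Fin n} (hj : j0 < j)
    (C : K → P) (q : P) {z : E} (hz : z ∈ ZZ d kk (pp j0) C) :
    (Pi.single (pp j q) 1 : E → F) z = 0 := by
  refine Pi.single_eq_of_ne ?_ _
  rintro rfl
  exact notMem h hj C q hz

/-- The entries between later petals lose the background `U`. -/
lemma entry0 (hF : Fam col S) (h : IsChain d col S kk pp) (hr : d.Ref) {j0 : Fin n} {C : K → P}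
    {i : Fin (n + 1)} {T : Matrix E E F} (hT : IsPiv (S i) T (ZZ d kk (pp j0) C)) {j j' : Fin n}
    (hj : j0 < j) (hj' : j0 < j') {p q : P} (hp : d.colP p = false) (hq : d.colP q = true) :
    T (pp j p) (pp j' q) = S i (pp j p) (pp j' q) - d.U p q := by
  classical
  obtain ⟨x, hx⟩ := hr.2 q
  let x' : K → F := fun k => if d.colK k = true then x k else 0
  have hx' : ∀ p', d.colP p' = false → ∑ k, d.V k p' * x' k = d.U p' q := by
    intro p' hp'
    rw [hx p', dotProduct]
    refine Finset.sum_congr rfl fun k _ => ?_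
    cases hk : d.colK k
    · have : d.V k p' = 0 := V_col hF h j (hk.trans hp'.symm)
      simp [Datum.y, this]
    · simp [x', hk, Datum.y, mul_comm]
  have hu : ∀ z, (S i *ᵥ (Pi.single (pp j' q) 1 + Function.extend kk x' 0)) z =
      S i z (pp j' q) + ∑ k, S i z (kk k) * x' k := by
    intro z
    rw [mulVec_add, Pi.add_apply, mulVec_extend _ h.kk_inj]
    simp
  have e := piv_col hT (Pi.single (pp j' q) 1 + Function.extend kk x' 0) (Pi.single (pp j' q) 1)
    (fun z hz => single_zero h hj' C q hz) (fun z hz => ?_)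
    (fun z hz => ?_) (notMem h hj C p)
  · rw [hu] at e
    have e2 : ∑ k, S i (pp j p) (kk k) * x' k = -d.U p q := by
      rw [← hx' p hp, ← Finset.sum_neg_distrib]
      exact Finset.sum_congr rfl fun k _ => by rw [h.pp_kk, neg_mul]
    rw [e2] at e
    simpa [sub_eq_add_neg] using e
  · have : Function.extend kk x' (0 : E → F) z = 0 := by
      by_cases hz' : ∃ k, kk k = z
      · obtain ⟨k, rfl⟩ := hz'
        rw [h.kk_inj.extend_apply]
        exact if_neg fun hk => hz (Or.inl ⟨k, hk, rfl⟩)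
      · exact Function.extend_apply' _ _ _ hz'
    rw [Pi.add_apply, this, add_zero]
  · rw [hu]
    rcases hz with ⟨k, hk, rfl⟩ | ⟨c, hc, rfl⟩
    · rw [h.kk_pp, V_col hF h j (hk.trans hq.symm), zero_add]
      refine Finset.sum_eq_zero fun k' _ => ?_
      cases hk' : d.colK k'
      · simp [x', hk']
      · rw [hF.bip i _ _ (by rw [h.colK, h.colK, hk, hk']), zero_mul]
    · rw [h.pp_lt i hj', ← hx' _ hc, ← Finset.sum_add_distrib]
      exact Finset.sum_eq_zero fun k _ => by rw [h.pp_kk]; ring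

lemma entry (hF : Fam col S) (h : IsChain d col S kk pp) (hr : d.Ref) (ht : d.Tau0) {j0 : Fin n}
    {C : K → P} {T : Fin (n + 1) → Matrix E E F}
    (hT : ∀ i, IsPiv (S i) (T i) (ZZ d kk (pp j0) C)) (i : Fin (n + 1)) {j j' : Fin n}
    (hj : j0 < j) (hj' : j0 < j') (p q : P) :
    T i (pp j p) (pp j' q) = S i (pp j p) (pp j' q) - d.U p q := by
  have hF' := hF.piv hT
  by_cases hc : d.colP p = d.colP q
  · have e1 : T i (pp j p) (pp j' q) = 0 := hF'.bip i _ _ (by
      rw [colFlip_of_notMem _ (notMem h hj C p), colFlip_of_notMem _ (notMem h hj' C q), h.colP,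
        h.colP, hc])
    have e2 : S i (pp j p) (pp j' q) = 0 := hF.bip i _ _ (by rw [h.colP, h.colP, hc])
    have e3 : d.U p q = 0 := by
      rw [← h.pp_lt i hj p q]
      exact hF.bip i _ _ (by rw [h.colP, h.colP, hc])
    rw [e1, e2, e3, sub_zero]
  · cases hq : d.colP q
    · have hp : d.colP p = true := by
        rw [hq] at hc
        simpa using hc
      rw [hF'.skew i, entry0 hF h hr (hT i) hj' hj hq hp, hF.skew i (pp j p), ht p q]
      ring
    · have hp : d.colP p = false := by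
        rw [hq] at hc
        simpa using hc
      exact entry0 hF h hr (hT i) hj hj' hp hq

/-- What is kept of the old datum. -/
def Keep [Fintype P] {K' : Type} (d : Datum F K P) (d' : Datum F K' P) : Prop :=
  d'.U = 0 ∧ d'.A = d.B ∧ d'.As = d.Bs ∧ ∀ u : P → F, d'.V *ᵥ u = 0 → d.V *ᵥ u = 0

lemma realN [Fintype P] {m : ℕ} (h : RealN m (n + 1 + 1) d) (hr : d.Ref) (hd : d.Red)
    (ht : d.Tau0) : ∃ d' : Datum F (K ⊕ P) P, RealN m n d' ∧ Keep d d' := by
  classical
  obtain ⟨E, _, col, S, kk, pp, hF, hC, h⟩ := h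
  obtain ⟨C, hCi⟩ := exists_cols d.y hd
  obtain ⟨T, hT⟩ := hF.exists_piv (not_dep hF h 0 hCi 0)
  set Z := ZZ d kk (pp 0) C with hZ
  have hF' := hF.piv hT
  let kk' : K ⊕ P → E := Sum.elim kk (pp 0)
  have hZR : Z ⊆ Set.range kk' := by
    rintro _ (⟨k, -, rfl⟩ | ⟨c, -, rfl⟩)
    · exact ⟨inl k, rfl⟩
    · exact ⟨inr _, rfl⟩
  have h0 : ∀ j : Fin (n + 1), (0 : Fin (n + 1 + 1)) < j.succ := Fin.succ_pos
  let i1 : Fin (n + 1 + 1 + 1) := Fin.succ 0
  let j1 : Fin (n + 1 + 1) := Fin.succ 0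
  have hrow : ∀ (i i' : Fin (n + 1 + 1)) (j : Fin (n + 1)), ∀ u ∈ Set.range kk',
      ∀ v ∈ Set.range kk' ∪ Set.range (pp j.succ), T i.succ u v = T i'.succ u v := by
    intro i i' j
    refine (hT i'.succ).agree_rect (hT i.succ) hZR (hZR.trans Set.subset_union_left) ?_
    rintro _ ⟨k | p, rfl⟩ _ (⟨k' | q, rfl⟩ | ⟨q, rfl⟩)
    · exact (h.kk_kk _ k k').trans (h.kk_kk _ k k').symm
    · exact (h.kk_pp _ k _ q).trans (h.kk_pp _ k _ q).symm
    · exact (h.kk_pp _ k _ q).trans (h.kk_pp _ k _ q).symm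
    · exact (h.pp_kk _ k' _ p).trans (h.pp_kk _ k' _ p).symm
    · exact (h.pp_left (i := i.succ) (j := 0) (by simp) p q).trans
        (h.pp_left (i := i'.succ) (j := 0) (by simp) p q).symm
    · exact (h.pp_lt _ (h0 j) p q).trans (h.pp_lt _ (h0 j) p q).symm
  have hcol : ∀ i (j j' : Fin (n + 1)) k q,
      T i (kk' k) (pp j.succ q) = T i (kk' k) (pp j'.succ q) := by
    intro i j j' k q
    have e0 : ∀ (M : Matrix E E F) z, (M *ᵥ (Pi.single (pp j.succ q) 1 -
        Pi.single (pp j'.succ q) 1)) z = M z (pp j.succ q) - M z (pp j'.succ q) := by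
      intro M z
      simp [mulVec_sub]
    have e1 : ∀ k, S i (kk' k) (pp j.succ q) - S i (kk' k) (pp j'.succ q) = 0 := by
      rintro (k | p)
      · exact sub_eq_zero.2 ((h.kk_pp _ k _ q).trans (h.kk_pp _ k _ q).symm)
      · exact sub_eq_zero.2 ((h.pp_lt _ (h0 j) p q).trans (h.pp_lt _ (h0 j') p q).symm)
    have e := piv_ker (hT i) (Pi.single (pp j.succ q) 1 - Pi.single (pp j'.succ q) 1)
      (fun z hz => by
        rw [Pi.sub_apply, single_zero h (h0 j) C q hz, single_zero h (h0 j') C q hz, sub_zero])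
      (fun z hz => by
        obtain ⟨k, rfl⟩ := hZR hz
        rw [e0, e1])
    have := congrFun e (kk' k)
    rw [e0, e0, e1] at this
    exact sub_eq_zero.1 this
  let d' : Datum F (K ⊕ P) P := ⟨fun k => colFlip col Z (kk' k), d.colP,
    Matrix.of fun k k' => T i1 (kk' k) (kk' k'), Matrix.of fun k q => T i1 (kk' k) (pp j1 q),
    d.B, 0, d.Bs⟩
  have hent := entry hF h hr ht hT
  have hch : IsChain d' (colFlip col Z) (fun i : Fin (n + 1 + 1) => T i.succ) kk'
      fun j : Fin (n + 1) => pp j.succ := by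
    refine IsChain.of_entries ?_ (fun _ => rfl)
      (fun j p => (colFlip_of_notMem _ (notMem h (h0 j) C p)).trans (h.colP _ p))
      (fun i => hF'.skew _) (fun i k k' => hrow i 0 0 _ ⟨k, rfl⟩ _ (Or.inl ⟨k', rfl⟩))
      (fun i k j q => (hrow i 0 j _ ⟨k, rfl⟩ _ (Or.inr ⟨q, rfl⟩)).trans (hcol _ j 0 k q))
      (fun i j j' hj p q => ?_) (fun i j hj p q => ?_) fun j p q => ?_
    · rintro ((k | p) | ⟨j, p⟩) ((k' | q) | ⟨j', q⟩) e
      · rw [h.kk_inj e]
      · exact absurd e (h.kk_ne_pp _ _ _)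
      · exact absurd e (h.kk_ne_pp _ _ _)
      · exact absurd e.symm (h.kk_ne_pp _ _ _)
      · rw [(h.pp_inj e).2]
      · exact absurd (h.pp_inj e).1 (h0 j').ne
      · exact absurd e.symm (h.kk_ne_pp _ _ _)
      · exact absurd (h.pp_inj e).1 (h0 j).ne'
      · obtain ⟨e1, e2⟩ : j.succ = j'.succ ∧ p = q := h.pp_inj e
        rw [Fin.succ_injective _ e1, e2]
    · rw [hent _ (h0 j) (h0 j'), h.pp_lt _ (Fin.succ_lt_succ_iff.2 hj), sub_self]
      rfl
    · rw [hent _ (h0 j) (h0 j), h.pp_left (by simpa using hj), ht p q, sub_neg_eq_add]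
      rfl
    · rw [hent _ (h0 j) (h0 j), Fin.succ_castSucc, h.pp_own, ht p q, sub_neg_eq_add]
      rfl
  refine ⟨d', RealN.mono ⟨E, inferInstance, _, _, _, _, hF'.reindex _,
    fun i => (hT _).conn (hC _), hch⟩ (Nat.le_succ n), rfl, rfl, rfl, fun u hu => ?_⟩
  have hinj : Function.Injective (pp j1) := fun p q e => (h.pp_inj e).2
  have e := piv_ker (hT i1).symm (Function.extend (pp j1) u 0) (fun z hz => by
    refine Function.extend_apply' _ _ _ ?_
    rintro ⟨q, rfl⟩
    exact notMem h (h0 0) C q hz) (fun z hz => by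
    obtain ⟨k, rfl⟩ := hZR hz
    rw [mulVec_extend _ hinj]
    exact congrFun hu k)
  funext k
  have e1 := congrFun e (kk k)
  rw [mulVec_extend _ hinj, mulVec_extend _ hinj] at e1
  have e2 := congrFun hu (inl k)
  refine Eq.trans ?_ (e1.trans e2)
  exact Finset.sum_congr rfl fun q _ => by rw [h.kk_pp]

end FLAT

theorem flat {F : Type} [Field F] [Fintype F] (m : ℕ) : FLAT F m := by
  classical
  intro K P _ _ d hR hr hd hc ht hv
  obtain ⟨d', h1, hU, hA, hAs, hk⟩ := real_of_forall (FLAT.Keep d)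
    fun n => FLAT.realN (hR (n + 1 + 1)) hr hd ht
  have hr' : d'.Ref := ⟨fun p => ⟨0, fun q => by simp [hU]⟩, fun p => ⟨0, fun q => by simp [hU]⟩⟩
  obtain ⟨R, -, g2, g3, g4⟩ := hr'.exists_red
  obtain ⟨a, b, hab⟩ := hv
  obtain ⟨ya, yb, hne, -, -, -⟩ := hR.alg.vis hr hab
  have hy : ∀ p, d.y p ≠ 0 → d'.y p ≠ 0 := fun p hp e => hp (by
    have := hk (Pi.single p 1) (by
      rw [mulVec_single_one]
      exact e)
    rwa [mulVec_single_one] at this)
  refine ⟨R, inferInstance, _, h1.resK Subtype.val_injective, ⟨hU, g2, ?_, a, b, g4 _ ?_⟩, ?_⟩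
  · have : (d'.resK (Subtype.val : R → K ⊕ P)).B = d.B := by
      change d'.A + d'.Uᵀ = _
      rw [hU, hA]
      simp
    rwa [this]
  · rintro ⟨c, c1, c2⟩
    have e := c2 a (by simp) b (by simp)
    rw [d'.eq_one_of_y (c1 a (by simp)) (hy a ya), d'.eq_one_of_y (c1 b (by simp)) (hy b yb),
      one_mul, one_mul, hA, hAs] at e
    exact hne e
  · rw [Fintype.card_coe, g3, ← hd.rank, rank_le_iff_ker]
    intro Y0 hY
    obtain ⟨u, u1, u2, u3⟩ := (rank_le_iff_ker _ _).1 le_rfl Y0 hY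
    exact ⟨u, u1, u2, hk u u3⟩

end Pool.Agent.MP_d99b12_co.H86
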