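import Pool.Agent.MP_d99b12_co.H25.Spec

/-! # Closed components: definitions and statements (MP_d99b12_co) -/

namespace Pool.Agent.MP_d99b12_co.H86

open Matrix Sum H25

section Defs

variable {F : Type} [Field F] {E K P : Type}

/-- A set of cut rank at most `l` contains `Q` and misses `Y`. -/
def Sep (S : Matrix E E F) (l : ℕ) (Q Y : Set E) : Prop :=
  ∃ W : Set E, Q ⊆ W ∧ Disjoint W Y ∧ RkLE S W Wᶜ l

/-- `Q` cannot be separated from any two petals. -/
def NoSep [Fintype K] {ι : Type} {N : ℕ} (S : ι → Matrix E E F) (_kk : K → E) (Q : Set E)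
    (pp : Fin N → P → E) : Prop :=
  ∀ i j l, j < l → ¬Sep (S i) (Fintype.card K) Q (Set.range (pp j) ∪ Set.range (pp l))

/-- A first stage of the growth that cannot be separated from any two petals. -/
def RealNS [Fintype K] [Fintype P] (m N : ℕ) (d : Datum F K P) : Prop :=
  ∃ (E ι : Type) (_ : Fintype E) (col : E → Bool) (S : ι → Matrix E E F) (kk : K → E)
    (pp : Fin N → P → E) (cl : Fin (N + 1) → ι) (Q : Set E) (X : ι → E → K → F),
    Stage m d col S kk pp cl Q X ∧ Fintype.card K < Q.ncard ∧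
    Q.ncard ≤ Fintype.card K + Fintype.card P ∧ NoSep S kk Q pp

/-- A chain in which the core with one petal is separated from any two petals on one side. -/
def RealCl [Fintype K] (m n : ℕ) (d : Datum F K P) : Prop :=
  ∃ (E : Type) (_ : Fintype E) (col : E → Bool) (S : Fin (n + 1) → Matrix E E F) (kk : K → E)
    (pp : Fin n → P → E), Fam col S ∧ (∀ i, Conn m (S i)) ∧ IsChain d col S kk pp ∧
    ∀ i j l, j < l → (i < j ∨ l < i) → Sep (S (Fin.last n)) (Fintype.card K)
      (Set.range kk ∪ Set.range (pp i)) (Set.range (pp j) ∪ Set.range (pp l))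

/-- A chain with `2 n` petals; the petals `2 t`, `2 t + 1` lie in a set `Ω t` that is seen from
outside only through the core; different sets `Ω t` are disjoint and do not see each other. -/
def RealC [Fintype K] (m n : ℕ) (d : Datum F K P) : Prop :=
  ∃ (E : Type) (_ : Fintype E) (col : E → Bool) (S : Fin (2 * n + 1) → Matrix E E F) (kk : K → E)
    (pp : Fin (2 * n) → P → E) (Ω : Fin n → Set E),
    Fam col S ∧ (∀ i, Conn m (S i)) ∧ IsChain d col S kk pp ∧
    (∀ t j p, j.val / 2 = t.val → pp j p ∈ Ω t) ∧ (∀ t k, kk k ∉ Ω t) ∧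
    (∀ t t', t ≠ t' → Disjoint (Ω t) (Ω t')) ∧
    (∀ i t t', t ≠ t' → ∀ u ∈ Ω t, ∀ w ∈ Ω t', S i u w = 0) ∧
    ∀ i t u, u ∉ Ω t → InSpan (S i) kk (Ω t) u

/-- A flat connected datum with a visible pair. -/
structure Good [Fintype K] (d : Datum F K P) : Prop where
  flat : d.U = 0
  red : d.Red
  conn : NConn d.B
  vis : d.Vis

end Defs

variable (F : Type) [Field F] [Fintype F]

def FLAT (m : ℕ) : Prop := ∀ (K P : Type) [Fintype K] [Fintype P] (d : Datum F K P), Real m d →
  d.Ref → d.Red → NConn d.B → d.Tau0 → d.Vis →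
  ∃ (K' : Type) (_ : Fintype K') (d' : Datum F K' P), Real m d' ∧ Good d' ∧
    Fintype.card K ≤ Fintype.card K'

def DICH (m : ℕ) : Prop := ∀ (K P : Type) [Fintype K] [Fintype P] (d : Datum F K P) (P0 : Set P),
  Real m d → d.AugIn P0 → (∀ N, RealNS m N d) ∨ ∀ n, RealCl m n d

def AUG2 (m : ℕ) : Prop := ∀ (K P : Type) [Fintype K] [Fintype P] (d : Datum F K P) (P0 : Set P),
  (∀ N, RealNS m N d) → d.AugIn P0 →
  ∃ (K' P' : Type) (_ : Fintype K') (_ : Fintype P') (d' : Datum F K' P') (ι : P → P'),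
    Real m d' ∧ d'.AugOut (Fintype.card K) (ι '' P0)

def COMP (m : ℕ) : Prop := ∀ (K P : Type) [Fintype K] [Fintype P] (d : Datum F K P),
  d.U = 0 → d.Red → (∀ n, RealCl m n d) → ∀ n, RealC m n d

/-- Every datum leads to a flat datum of at least the same level with closed components. -/
def CLOSED2 (m : ℕ) : Prop := ∀ (K P : Type) [Fintype K] [Fintype P] (d : Datum F K P),
  Real m d → d.Ref → d.Red → NConn d.B → d.Tau0 → d.Vis →
  ∃ (K' P' : Type) (_ : Fintype K') (_ : Fintype P') (d' : Datum F K' P'), Real m d' ∧ Good d' ∧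
    Fintype.card K ≤ Fintype.card K' ∧ ∀ n, RealC m n d'

end Pool.Agent.MP_d99b12_co.H86
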